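import Mathlib

set_option autoImplicit false

namespace Pool.Agent.Results.MP_ad0c0d_al.DualNumbers

/-- A commutative ring with `1 ≠ 0` whose ideals are totally ordered by inclusion. -/
def IsChainRing (R : Type) [CommRing R] : Prop :=
  (1 : R) ≠ 0 ∧ ∀ I J : Ideal R, I ≤ J ∨ J ≤ I

/-- The circulant matrix with first row `a`: entry `(i, j)` is `a (j - i)`, indices mod `n + 1`. -/
def cir {R : Type} {n : ℕ} (a : Fin (n + 1) → R) : Matrix (Fin (n + 1)) (Fin (n + 1)) R :=
  Matrix.of fun i j => a (j - i)

/-- The number of circulant matrices of order `n + 1` over `R` with determinant `d`. -/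
noncomputable def count (R : Type) [CommRing R] (n : ℕ) (d : R) : ℕ :=
  Nat.card {a : Fin (n + 1) → R // (cir a).det = d}

/-- A finite chain ring, an order and a unit `b` such that the numbers of circulant matrices of
determinant `1` and of determinant `b` differ. -/
theorem result : ∃ (R : Type) (_ : CommRing R), Finite R ∧ IsChainRing R ∧
    ∃ (n : ℕ) (b : R), IsUnit b ∧ count R n 1 ≠ count R n b := by
  have F : Finite (DualNumber (ZMod 2)) := inferInstanceAs (Finite (ZMod 2 × ZMod 2))
  refine ⟨DualNumber (ZMod 2), inferInstance, F, ⟨one_ne_zero, fun I J => ?_⟩, 1,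
    1 + DualNumber.eps, ?_, ?_⟩
  · rcases DualNumber.ideal_trichotomy I with rfl | rfl | rfl <;>
      rcases DualNumber.ideal_trichotomy J with rfl | rfl | rfl <;> simp
  · rw [TrivSqZeroExt.isUnit_iff_isUnit_fst]; simp
  · have h0 : count (DualNumber (ZMod 2)) 1 (1 + DualNumber.eps) = 0 := by
      refine Nat.card_eq_zero.mpr (Or.inl ⟨fun ⟨a, h⟩ => ?_⟩)
      have h1 := congrArg TrivSqZeroExt.snd h
      have h2 : ∀ x : ZMod 2, x + x = 0 := by decide
      simp [cir, Matrix.det_fin_two, mul_comm, h2] at h1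
      rw [show (-1 : Fin (1 + 1)) = 1 from rfl, h2] at h1
      exact zero_ne_one h1
    rw [h0]
    refine Nat.card_ne_zero.mpr ⟨⟨⟨![1, 0], ?_⟩⟩, inferInstance⟩
    simp [cir, Matrix.det_fin_two]

end Pool.Agent.Results.MP_ad0c0d_al.DualNumbers
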